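import Mathlib

/-!
Local defining functions of smoothly bounded domains can be made global.
-/

set_option autoImplicit false

open Set Metric Filter Topology
open scoped ContDiff Manifold

namespace Dbi

theorem extend_rho {E : Type*} [NormedAddCommGroup E] [NormedSpace ℝ E] [FiniteDimensional ℝ E]
    {Ω U : Set E} (hb : Bornology.IsBounded Ω) (hU : IsOpen U) (hcl : closure Ω ⊆ U) {ρ : E → ℝ}
    (hρ : ContDiffOn ℝ ((⊤ : ℕ∞) : WithTop ℕ∞) ρ U) (hΩ : Ω = {x | x ∈ U ∧ ρ x < 0})
    (hd : ∀ x ∈ frontier Ω, fderiv ℝ ρ x ≠ 0) :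
    ∃ ρ' : E → ℝ, ContDiff ℝ ((⊤ : ℕ∞) : WithTop ℕ∞) ρ' ∧ Ω = {x | ρ' x < 0} ∧
      ∀ x, ρ' x = 0 → fderiv ℝ ρ' x ≠ 0 := by
  have hcont : ContinuousOn ρ U := hρ.continuousOn
  have hΩo : IsOpen Ω := by
    have h1 : Ω = U ∩ ρ ⁻¹' (Iio 0) := by rw [hΩ]; rfl
    rw [h1]
    exact hcont.isOpen_inter_preimage hU isOpen_Iio
  have hdiff : ∀ x ∈ U, DifferentiableAt ℝ ρ x := fun x hx =>
    (hρ.contDiffAt (hU.mem_nhds hx)).differentiableAt (by simp)
  -- the open set where the derivative does not vanish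
  set N : Set E := U ∩ (fderiv ℝ ρ) ⁻¹' {0}ᶜ with hN
  have hNo : IsOpen N := by
    have h1 : ContinuousOn (fderiv ℝ ρ) U := hρ.continuousOn_fderiv_of_isOpen hU (by simp)
    exact h1.isOpen_inter_preimage hU isOpen_compl_singleton
  have hfr : frontier Ω ⊆ N := fun x hx => ⟨hcl (frontier_subset_closure hx), hd x hx⟩
  -- zeros of `ρ` in `N` are boundary points
  have hzero : ∀ x ∈ N, ρ x = 0 → x ∈ frontier Ω := by
    intro x hx h0
    have hxΩ : x ∉ Ω := by
      rw [hΩ]; rintro ⟨-, h⟩; linarith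
    rw [hΩo.frontier_eq]
    refine ⟨?_, hxΩ⟩
    by_contra hcon
    -- near `x` the function is nonnegative, so `x` is a local minimum
    have h1 : ∀ᶠ y in 𝓝 x, y ∉ Ω := by
      have := isClosed_closure (s := Ω) |>.isOpen_compl.mem_nhds hcon
      filter_upwards [this] with y hy hy2
      exact hy (subset_closure hy2)
    have h2 : IsLocalMin ρ x := by
      filter_upwards [h1, hU.mem_nhds hx.1] with y hy hyU
      rw [h0]
      by_contra h
      exact hy (by rw [hΩ]; exact ⟨hyU, not_le.1 h⟩)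
    exact hx.2 h2.fderiv_eq_zero
  set U' : Set E := Ω ∪ N with hU'
  have hU'o : IsOpen U' := hΩo.union hNo
  have hU'U : U' ⊆ U := by
    rintro x (hx | hx)
    · rw [hΩ] at hx; exact hx.1
    · exact hx.1
  have hclU' : closure Ω ⊆ U' := by
    rw [closure_eq_self_union_frontier]
    exact union_subset_union_right _ hfr
  have hK : IsCompact (closure Ω) := hb.isCompact_closure
  obtain ⟨δ, hδ, hδU⟩ := hK.exists_cthickening_subset_open hU'o hclU'
  have hint : closure Ω ⊆ interior (cthickening δ (closure Ω)) :=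
    (self_subset_thickening hδ _).trans
      (interior_maximal (thickening_subset_cthickening δ _) isOpen_thickening)
  obtain ⟨χ, hχ1, hχ0, hχI⟩ := exists_contMDiffMap_one_nhds_of_subset_interior
    (n := (⊤ : ℕ∞)) 𝓘(ℝ, E) (isClosed_closure (s := Ω)) hint
  have hχs : ContDiff ℝ ((⊤ : ℕ∞) : WithTop ℕ∞) (χ : E → ℝ) := χ.contMDiff.contDiff
  set ρ' : E → ℝ := fun x => χ x * ρ x + (1 - χ x) with hρ'
  have hnear : ∀ x ∈ closure Ω, ρ' =ᶠ[𝓝 x] ρ := by
    intro x hx
    have h1 : ∀ᶠ y in 𝓝 x, χ y = 1 := by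
      have := hχ1
      rw [eventually_nhdsSet_iff_forall] at this
      exact this x hx
    filter_upwards [h1] with y hy
    rw [hρ']; simp only; rw [hy]; ring
  have hfar : ∀ x, x ∉ cthickening δ (closure Ω) → ρ' =ᶠ[𝓝 x] fun _ => 1 := by
    intro x hx
    filter_upwards [isClosed_cthickening.isOpen_compl.mem_nhds hx] with y hy
    rw [hρ']; simp only; rw [hχ0 y hy]; ring
  have hneg : ∀ x, ρ' x < 0 → x ∈ Ω := by
    intro x hx
    have hxt : x ∈ cthickening δ (closure Ω) := by
      by_contra hcon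
      have := (hfar x hcon).self_of_nhds
      rw [this] at hx
      linarith
    have hxU : x ∈ U := hU'U (hδU hxt)
    rw [hΩ]
    refine ⟨hxU, ?_⟩
    by_contra h
    have h1 := hχI x
    have h2 : 0 ≤ χ x * ρ x := mul_nonneg h1.1 (not_lt.1 h)
    have h3 : 0 ≤ 1 - χ x := sub_nonneg.2 h1.2
    rw [hρ'] at hx
    simp only at hx
    linarith
  refine ⟨ρ', ?_, ?_, ?_⟩
  · rw [contDiff_iff_contDiffAt]
    intro x
    by_cases hx : x ∈ cthickening δ (closure Ω)
    · have h1 : ContDiffAt ℝ ((⊤ : ℕ∞) : WithTop ℕ∞) ρ x :=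
        hρ.contDiffAt (hU.mem_nhds (hU'U (hδU hx)))
      exact (hχs.contDiffAt.mul h1).add (contDiffAt_const.sub hχs.contDiffAt)
    · exact contDiffAt_const.congr_of_eventuallyEq (hfar x hx)
  · ext x
    constructor
    · intro hx
      show ρ' x < 0
      rw [(hnear x (subset_closure hx)).self_of_nhds]
      rw [hΩ] at hx
      exact hx.2
    · exact hneg x
  · intro x hx
    have hxt : x ∈ cthickening δ (closure Ω) := by
      by_contra hcon
      have := (hfar x hcon).self_of_nhds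
      rw [this] at hx
      exact one_ne_zero hx
    have hxU' := hδU hxt
    have hxΩ : x ∉ Ω := by
      intro hcon
      have h1 := (hnear x (subset_closure hcon)).self_of_nhds
      rw [hΩ] at hcon
      have := hcon.2
      linarith
    have hxN : x ∈ N := hxU'.resolve_left hxΩ
    have h0 : 0 ≤ ρ x := by
      by_contra h
      exact hxΩ (by rw [hΩ]; exact ⟨hxN.1, not_le.1 h⟩)
    have h1 := hχI x
    have h2 : 0 ≤ χ x * ρ x := mul_nonneg h1.1 h0
    have h3 : 0 ≤ 1 - χ x := sub_nonneg.2 h1.2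
    have h4 : χ x = 1 := by
      rw [hρ'] at hx
      simp only at hx
      linarith
    have h5 : ρ x = 0 := by
      rw [hρ'] at hx
      simp only at hx
      rw [h4] at hx
      linarith
    have h6 := hzero x hxN h5
    rw [(hnear x (frontier_subset_closure h6)).fderiv_eq]
    exact hd x h6

end Dbi
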