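import Mathlib

/-!
Weak limits of uniformly bounded sequences of functions on a finite measure space.
-/

set_option autoImplicit false

open MeasureTheory Set Metric Filter Topology
open scoped ENNReal NNReal ComplexConjugate

namespace Dbi

variable {X : Type*} [MeasurableSpace X] {μ : Measure X} [IsFiniteMeasure μ]

/-- A function whose integrals against bounded functions are controlled by the `L¹` norm. -/
theorem ae_bound_of_test {u : X → ℂ} (hu : MemLp u 2 μ) {K : ℝ}
    (h : ∀ g : X → ℂ, Measurable g → (∀ x, ‖g x‖ ≤ 1) →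
      ‖∫ x, u x * g x ∂μ‖ ≤ K * ∫ x, ‖g x‖ ∂μ) :
    ∀ᵐ x ∂μ, ‖u x‖ ≤ K := by
  obtain ⟨v, hv, huv⟩ := hu.aestronglyMeasurable
  have hvm : Measurable v := hv.measurable
  have hvL : MemLp v 2 μ := hu.ae_eq huv
  set A : Set X := {x | K < ‖v x‖} with hA
  have hAm : MeasurableSet A := measurableSet_lt measurable_const hvm.norm
  set g : X → ℂ := A.indicator (fun x => conj (v x) / (‖v x‖ : ℂ)) with hg
  have hgm : Measurable g := by
    refine Measurable.indicator ?_ hAm
    exact ((Complex.continuous_conj.measurable).comp hvm).div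
      (Complex.measurable_ofReal.comp hvm.norm)
  have hg1 : ∀ x, ‖g x‖ ≤ 1 := by
    intro x
    rw [hg]
    by_cases hx : x ∈ A
    · rw [indicator_of_mem hx, norm_div, Complex.norm_real, norm_norm, RCLike.norm_conj]
      exact div_self_le_one _
    · rw [indicator_of_notMem hx]; simp
  have h1 := h g hgm hg1
  have h2 : ∫ x, u x * g x ∂μ = ∫ x, ((A.indicator (fun x => ‖v x‖) x : ℝ) : ℂ) ∂μ := by
    refine integral_congr_ae ?_
    filter_upwards [huv] with x hx
    rw [hx, hg]
    by_cases hxA : x ∈ A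
    · rw [indicator_of_mem hxA, indicator_of_mem hxA]
      by_cases h0 : v x = 0
      · simp [h0]
      · have h0' : (‖v x‖ : ℂ) ≠ 0 := by simpa using h0
        have : v x * (conj (v x) / (‖v x‖ : ℂ)) = (v x * conj (v x)) / (‖v x‖ : ℂ) := by ring
        rw [this, Complex.mul_conj, Complex.normSq_eq_norm_sq]
        push_cast
        field_simp
    · rw [indicator_of_notMem hxA, indicator_of_notMem hxA]; simp
  have hvi : Integrable v μ := hvL.integrable (by norm_num)
  rw [h2, integral_complex_ofReal, Complex.norm_real, integral_indicator hAm] at h1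
  have h3 : ∫ x, ‖g x‖ ∂μ ≤ ∫ x in A, (1 : ℝ) ∂μ := by
    rw [← integral_indicator hAm]
    refine integral_mono_of_nonneg (Eventually.of_forall fun x => norm_nonneg _)
      ((integrable_const _).indicator hAm) (Eventually.of_forall fun x => ?_)
    by_cases hxA : x ∈ A
    · simp only [indicator_of_mem hxA]; exact hg1 x
    · simp only [indicator_of_notMem hxA, hg]; simp
  have h4 : 0 ≤ ∫ x in A, ‖v x‖ ∂μ := integral_nonneg fun x => norm_nonneg _
  rw [Real.norm_of_nonneg h4] at h1
  -- it is enough to show that `A` has measure zero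
  suffices hA0 : μ A = 0 by
    have : ∀ᵐ x ∂μ, x ∉ A := by
      rw [ae_iff]; simpa using hA0
    filter_upwards [this, huv] with x hx hx2
    rw [hx2]
    simpa [hA] using hx
  by_contra hA0
  rcases le_or_gt 0 K with hK0 | hK0
  · have h5 : ∫ x in A, ‖v x‖ ∂μ ≤ ∫ x in A, K ∂μ := by
      calc ∫ x in A, ‖v x‖ ∂μ ≤ K * ∫ x, ‖g x‖ ∂μ := h1
        _ ≤ K * ∫ x in A, (1 : ℝ) ∂μ := mul_le_mul_of_nonneg_left h3 hK0
        _ = ∫ x in A, K ∂μ := by rw [← integral_const_mul]; simp
    have h6 : 0 < ∫ x in A, (‖v x‖ - K) ∂μ := by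
      rw [setIntegral_pos_iff_support_of_nonneg_ae]
      · have : Function.support (fun x => ‖v x‖ - K) ∩ A = A := by
          ext x
          simp only [mem_inter_iff, Function.mem_support, and_iff_right_iff_imp]
          intro hx
          have : K < ‖v x‖ := hx
          linarith
        rw [this]
        exact pos_iff_ne_zero.2 hA0
      · rw [EventuallyLE, ae_restrict_iff' hAm]
        filter_upwards with x hx
        have : K < ‖v x‖ := hx
        simp only [Pi.zero_apply]
        linarith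
      · exact (hvi.norm.integrableOn).sub (integrable_const _)
    rw [integral_sub hvi.norm.integrableOn (integrable_const _)] at h6
    linarith
  · have h7 : 0 ≤ ∫ x, ‖g x‖ ∂μ := integral_nonneg fun x => norm_nonneg _
    -- here `A` is everything
    have h8 : ∫ x in A, ‖v x‖ ∂μ = 0 := by
      apply le_antisymm _ h4
      exact h1.trans (mul_nonpos_of_nonpos_of_nonneg hK0.le h7)
    have h9 : ∀ᵐ x ∂(μ.restrict A), ‖v x‖ = 0 := by
      have := (setIntegral_eq_zero_iff_of_nonneg_ae (μ := μ) (s := A) (f := fun x => ‖v x‖)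
        (Eventually.of_forall fun x => norm_nonneg _) hvi.norm.integrableOn).1 h8
      exact this
    -- then `g = 0` a.e. unless `v = 0`; use the constant test function instead
    have h10 := h (fun _ => 1) measurable_const (by simp)
    have h11 : 0 < ∫ x, ‖(1 : ℂ)‖ ∂μ := by
      simp only [norm_one, integral_const, smul_eq_mul, mul_one]
      refine ENNReal.toReal_pos ?_ (measure_ne_top _ _)
      intro h0
      exact hA0 (measure_mono_null (subset_univ A) h0)
    have h12 : K * ∫ x, ‖(1 : ℂ)‖ ∂μ < 0 := mul_neg_of_neg_of_pos hK0 h11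
    exact absurd (norm_nonneg _) (not_le.2 (h10.trans_lt h12))

/-- Uniformly bounded sequences have a weak limit along some ultrafilter, with the same bound. -/
theorem exists_weak_limit {w : ℕ → X → ℂ} (hw : ∀ n, AEStronglyMeasurable (w n) μ) {K : ℝ}
    (hK : ∀ n, ∀ᵐ x ∂μ, ‖w n x‖ ≤ K) :
    ∃ u : X → ℂ, AEStronglyMeasurable u μ ∧ (∀ᵐ x ∂μ, ‖u x‖ ≤ K) ∧
      ∀ g : X → ℂ, MemLp g 2 μ → ∀ c : ℂ,
        Tendsto (fun n => ∫ x, w n x * g x ∂μ) atTop (𝓝 c) → ∫ x, u x * g x ∂μ = c := by
  have hwL : ∀ n, MemLp (fun x => conj (w n x)) 2 μ := fun n => by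
    refine MemLp.of_bound (C := K) (Complex.continuous_conj.comp_aestronglyMeasurable (hw n)) ?_
    filter_upwards [hK n] with x hx
    simpa using hx
  set a : ℕ → Lp ℂ 2 μ := fun n => (hwL n).toLp with ha
  set R : ℝ := measureUnivNNReal μ ^ (2 : ℝ≥0∞).toReal⁻¹ * |K| with hR
  have haR : ∀ n, ‖a n‖ ≤ R := by
    intro n
    have h1 : ∀ᵐ x ∂μ, ‖a n x‖ ≤ |K| := by
      filter_upwards [hK n, (hwL n).coeFn_toLp] with x hx hx2
      rw [ha]
      rw [hx2]
      simpa using hx.trans (le_abs_self K)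
    exact Lp.norm_le_of_ae_bound (f := a n) (abs_nonneg K) h1
  set xi : ℕ → WeakDual ℂ (Lp ℂ 2 μ) := fun n =>
    StrongDual.toWeakDual (InnerProductSpace.toDual ℂ (Lp ℂ 2 μ) (a n)) with hxi
  have hball := WeakDual.isCompact_closedBall (𝕜 := ℂ) (E := Lp ℂ 2 μ) 0 R
  have hmem : ∀ n, xi n ∈ WeakDual.toStrongDual ⁻¹' closedBall (0 : StrongDual ℂ (Lp ℂ 2 μ)) R := by
    intro n
    simp only [mem_preimage, mem_closedBall, dist_zero_right]
    have : WeakDual.toStrongDual (xi n) = InnerProductSpace.toDual ℂ (Lp ℂ 2 μ) (a n) := rfl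
    rw [this, LinearIsometryEquiv.norm_map]
    exact haR n
  obtain ⟨ξ, -, hξ⟩ := hball.ultrafilter_le_nhds' ((hyperfilter ℕ).map xi)
    (Ultrafilter.mem_map.2 (Filter.mem_of_superset Filter.univ_mem fun n _ => hmem n))
  have hev : ∀ g : Lp ℂ 2 μ, Tendsto (fun n => xi n g) (hyperfilter ℕ) (𝓝 (ξ g)) := by
    intro g
    have h1 : Tendsto xi (hyperfilter ℕ) (𝓝 ξ) := hξ
    exact ((WeakDual.eval_continuous g).tendsto ξ).comp h1
  set b : Lp ℂ 2 μ := (InnerProductSpace.toDual ℂ (Lp ℂ 2 μ)).symm (WeakDual.toStrongDual ξ) with hb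
  have hbξ : ∀ g : Lp ℂ 2 μ, ξ g = inner ℂ b g := by
    intro g
    rw [hb, InnerProductSpace.toDual_symm_apply]
    rfl
  set u : X → ℂ := fun x => conj (b x) with hu
  have hum : AEStronglyMeasurable u μ :=
    Complex.continuous_conj.comp_aestronglyMeasurable (Lp.aestronglyMeasurable b)
  have huL : MemLp u 2 μ := by
    have h1 : MemLp (b : X → ℂ) 2 μ := Lp.memLp b
    exact h1.of_le hum (Eventually.of_forall fun x => by simp [hu])
  have hint : ∀ (g : X → ℂ) (hg : MemLp g 2 μ), ξ (hg.toLp) = ∫ x, u x * g x ∂μ := by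
    intro g hg
    rw [hbξ, L2.inner_def]
    refine integral_congr_ae ?_
    filter_upwards [hg.coeFn_toLp] with x hx
    rw [hx]
    simp [hu, mul_comm]
  have hint' : ∀ (n : ℕ) (g : X → ℂ) (hg : MemLp g 2 μ), xi n (hg.toLp) = ∫ x, w n x * g x ∂μ := by
    intro n g hg
    have : xi n (hg.toLp) = inner ℂ (a n) hg.toLp := rfl
    rw [this, L2.inner_def]
    refine integral_congr_ae ?_
    filter_upwards [hg.coeFn_toLp, (hwL n).coeFn_toLp] with x hx hx2
    rw [hx, ha, hx2]
    simp [mul_comm]
  have hlim : ∀ g : X → ℂ, MemLp g 2 μ →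
      Tendsto (fun n => ∫ x, w n x * g x ∂μ) (hyperfilter ℕ) (𝓝 (∫ x, u x * g x ∂μ)) := by
    intro g hg
    have := hev hg.toLp
    rw [hint g hg] at this
    exact this.congr fun n => hint' n g hg
  refine ⟨u, hum, ?_, ?_⟩
  · refine ae_bound_of_test huL fun g hg hg1 => ?_
    have hgL : MemLp g 2 μ := MemLp.of_bound hg.aestronglyMeasurable 1
      (Eventually.of_forall hg1)
    have hgi : Integrable g μ := hgL.integrable (by norm_num)
    refine le_of_tendsto (hlim g hgL).norm (Eventually.of_forall fun n => ?_)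
    rw [← integral_const_mul]
    refine norm_integral_le_of_norm_le (hgi.norm.const_mul K) ?_
    filter_upwards [hK n] with x hx
    rw [norm_mul]
    exact mul_le_mul_of_nonneg_right hx (norm_nonneg _)
  · intro g hg c hc
    exact tendsto_nhds_unique (hlim g hg) (hc.mono_left Nat.hyperfilter_le_atTop)

end Dbi
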