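import Pool.Agent.Lib_helper91.Dbi.Moll
import Pool.Agent.Lib_helper91.Dbi.Weak

/-!
From smooth forms to bounded measurable forms.
-/

set_option autoImplicit false

open MeasureTheory Set Metric Filter Topology
open scoped ENNReal NNReal ContDiff

namespace Dbi

open Db

/-- Dilation about `a`. -/
noncomputable def dil (a : V) (r : ℝ) (x : V) : V := a + r • (x - a)

lemma dil_inv (a : V) {r : ℝ} (hr : r ≠ 0) (x : V) : dil a r (dil a r⁻¹ x) = x := by
  unfold dil
  simp [smul_smul, hr]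

lemma contDiff_dil (a : V) (r : ℝ) (n : WithTop ℕ∞) : ContDiff ℝ n (dil a r) := by
  unfold dil
  exact contDiff_const.add ((contDiff_id.sub contDiff_const).const_smul r)

lemma hasFDerivAt_dil (a : V) (r : ℝ) (x : V) :
    HasFDerivAt (dil a r) (r • ContinuousLinearMap.id ℝ V) x := by
  unfold dil
  have h1 : HasFDerivAt (fun x : V => x - a) (ContinuousLinearMap.id ℝ V) x :=
    (hasFDerivAt_id (𝕜 := ℝ) x).sub_const a
  exact (h1.const_smul r).const_add a

lemma db_comp_dil (k : Fin 2) {u : V → ℂ} (a : V) (r : ℝ) {x : V}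
    (hu : DifferentiableAt ℝ u (dil a r x)) :
    db k (fun y => u (dil a r y)) x = (r : ℂ) * db k u (dil a r x) := by
  have h := hu.hasFDerivAt.comp x (hasFDerivAt_dil a r x)
  have h' : fderiv ℝ (fun y => u (dil a r y)) x
      = (fderiv ℝ u (dil a r x)).comp (r • ContinuousLinearMap.id ℝ V) := h.fderiv
  unfold db
  rw [h']
  simp only [ContinuousLinearMap.comp_apply, smul_apply,
    ContinuousLinearMap.id_apply, map_smul, Complex.real_smul]
  ring

lemma db_const_mul (k : Fin 2) {u : V → ℂ} (c : ℂ) {x : V} (hu : DifferentiableAt ℝ u x) :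
    db k (fun y => c * u y) x = c * db k u x := by
  unfold db
  rw [fderiv_const_mul hu]
  simp only [smul_apply, smul_eq_mul]
  ring

/-- A ball around a contracted point lies in the convex set. -/
lemma ball_dil {Ω : Set V} (hc : Convex ℝ Ω) {a : V} {δ : ℝ} (ha : ball a δ ⊆ Ω) {r : ℝ}
    (hr0 : 0 < r) (hr1 : r < 1) {x : V} (hx : x ∈ Ω) :
    ball (dil a r x) ((1 - r) * δ) ⊆ Ω := by
  intro y hy
  have h1r : 0 < 1 - r := by linarith
  set v : V := (1 - r)⁻¹ • (y - dil a r x) with hv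
  have hv1 : a + v ∈ ball a δ := by
    rw [mem_ball, dist_eq_norm, add_sub_cancel_left, hv, norm_smul, norm_inv,
      Real.norm_of_nonneg h1r.le, inv_mul_lt_iff₀ h1r, ← dist_eq_norm]
    exact hy
  have h2 := hc hx (ha hv1) hr0.le h1r.le (by ring)
  have h3 : r • x + (1 - r) • (a + v) = y := by
    rw [smul_add, hv, smul_smul, mul_inv_cancel₀ h1r.ne', one_smul]
    unfold dil
    rw [smul_sub, sub_smul, one_smul]
    abel
  rwa [h3] at h2

/-- The solution on the contracted domain. -/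
theorem sol_contracted {Ω : Set V} {C : ℝ}
    (hsol : ∀ (f : Fin 2 → V → ℂ) (M : ℝ),
      (∀ j, ContDiffOn ℝ ((⊤ : ℕ∞) : WithTop ℕ∞) (f j) Ω) →
      (∀ x ∈ Ω, db 0 (f 1) x = db 1 (f 0) x) →
      (∀ x ∈ Ω, ∀ j, ‖f j x‖ ≤ M) →
      ∃ u : V → ℂ, ContDiffOn ℝ ((⊤ : ℕ∞) : WithTop ℕ∞) u Ω ∧
        (∀ x ∈ Ω, ∀ j : Fin 2, db j u x = f j x) ∧ ∀ x ∈ Ω, ‖u x‖ ≤ C * M)
    (hΩ : IsOpen Ω) (hc : Convex ℝ Ω) {a : V} {δ : ℝ} (ha : ball a δ ⊆ Ω)
    {F : Fin 2 → V → ℂ} {M : ℝ} (hM : ∀ j x, ‖F j x‖ ≤ M)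
    (hF : ∀ j, LocallyIntegrable (F j) volume)
    (hcl : ∀ φ : V → ℂ, ContDiff ℝ ((⊤ : ℕ∞) : WithTop ℕ∞) φ → HasCompactSupport φ →
      tsupport φ ⊆ Ω → ∫ x, F 1 x * db 0 φ x = ∫ x, F 0 x * db 1 φ x)
    {r : ℝ} (hr0 : 0 < r) (hr1 : r < 1) (η : ContDiffBump (0 : V))
    (hη : η.rOut < (1 - r) * δ) :
    ∃ v : V → ℂ, ContDiffOn ℝ ((⊤ : ℕ∞) : WithTop ℕ∞) v (dil a r⁻¹ ⁻¹' Ω) ∧
      (∀ y ∈ dil a r⁻¹ ⁻¹' Ω, ∀ j : Fin 2, db j v y = Gm η (F j) y) ∧
      ∀ y ∈ dil a r⁻¹ ⁻¹' Ω, ‖v y‖ ≤ C * M := by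
  have hG : ∀ j, ContDiff ℝ ((⊤ : ℕ∞) : WithTop ℕ∞) (Gm η (F j)) := fun j => contDiff_Gm η (hF j)
  have hGd : ∀ j x, DifferentiableAt ℝ (Gm η (F j)) x := fun j x =>
    (hG j).differentiable (by simp) x
  have hGc : ∀ j, ContDiff ℝ ((⊤ : ℕ∞) : WithTop ℕ∞) (fun x => Gm η (F j) (dil a r x)) :=
    fun j => (hG j).comp (contDiff_dil a r _)
  set f : Fin 2 → V → ℂ := fun j x => (r : ℂ) * Gm η (F j) (dil a r x) with hf
  have hM0 : 0 ≤ M := (norm_nonneg _).trans (hM 0 0)
  obtain ⟨u, hu, hdb, hub⟩ := hsol f M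
    (fun j => (contDiff_const.mul (hGc j)).contDiffOn)
    (by
      intro x hx
      have h1 : closedBall (dil a r x) η.rOut ⊆ Ω :=
        (closedBall_subset_ball hη).trans (ball_dil hc ha hr0 hr1 hx)
      have h2 := Gm_closed η hF hcl h1
      simp only [hf]
      rw [db_const_mul 0 _ ((hGc 1).differentiable (by simp) x),
        db_const_mul 1 _ ((hGc 0).differentiable (by simp) x),
        db_comp_dil 0 a r (hGd 1 _), db_comp_dil 1 a r (hGd 0 _), h2])
    (by
      intro x hx j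
      simp only [hf]
      rw [norm_mul, Complex.norm_real, Real.norm_of_nonneg hr0.le]
      calc r * ‖Gm η (F j) (dil a r x)‖ ≤ 1 * M :=
            mul_le_mul hr1.le (norm_Gm_le η (hM j) _) (norm_nonneg _) zero_le_one
        _ = M := one_mul M)
  have hr : (r : ℝ) ≠ 0 := hr0.ne'
  have hopen : IsOpen (dil a r⁻¹ ⁻¹' Ω) := hΩ.preimage (contDiff_dil a _ 0).continuous
  refine ⟨fun y => u (dil a r⁻¹ y), ?_, ?_, ?_⟩
  · exact hu.comp (contDiff_dil a _ _).contDiffOn fun y hy => hy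
  · intro y hy j
    have hud : DifferentiableAt ℝ u (dil a r⁻¹ y) :=
      (hu.contDiffAt (hΩ.mem_nhds hy)).differentiableAt (by simp)
    rw [db_comp_dil j a r⁻¹ hud, hdb _ hy j]
    simp only [hf]
    rw [dil_inv a hr, ← mul_assoc]
    push_cast
    rw [inv_mul_cancel₀ (by exact_mod_cast hr), one_mul]
  · intro y hy
    exact hub _ hy

/-- Integration by parts on an open set. -/
theorem ibp {W : Set V} (hW : IsOpen W) {v G : V → ℂ}
    (hv : ContDiffOn ℝ ((⊤ : ℕ∞) : WithTop ℕ∞) v W) {j : Fin 2} (hG : Continuous G)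
    (hd : ∀ y ∈ W, db j v y = G y) {φ : V → ℂ} (hφ : ContDiff ℝ ((⊤ : ℕ∞) : WithTop ℕ∞) φ)
    (hφc : HasCompactSupport φ) (hφW : tsupport φ ⊆ W) :
    ∫ x, W.indicator v x * db j φ x = - ∫ x, G x * φ x := by
  set h : V → ℂ := fun x => v x * φ x with hh
  have hφ1 : ContDiff ℝ 1 φ := hφ.of_le (by exact_mod_cast le_top)
  have hh1 : ContDiff ℝ 1 h := by
    rw [contDiff_iff_contDiffAt]
    intro x
    by_cases hx : x ∈ W
    · exact ((hv.contDiffAt (hW.mem_nhds hx)).of_le (by exact_mod_cast le_top)).mul hφ1.contDiffAt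
    · have hx' : x ∉ tsupport φ := fun h' => hx (hφW h')
      have : h =ᶠ[𝓝 x] fun _ => 0 := by
        filter_upwards [(isClosed_tsupport φ).isOpen_compl.mem_nhds hx'] with y hy
        rw [hh]
        simp only
        rw [image_eq_zero_of_notMem_tsupport hy, mul_zero]
      exact contDiffAt_const.congr_of_eventuallyEq this
  have hhc : HasCompactSupport h := hφc.mul_left
  have h0 := integral_db_zero hh1 hhc j
  have hpt : ∀ x, db j h x = W.indicator v x * db j φ x + G x * φ x := by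
    intro x
    by_cases hx : x ∈ W
    · have h1 : HasDb j v (G x) x := by
        have h2 := hasDb_of (k := j) (u := v)
          ((hv.contDiffAt (hW.mem_nhds hx)).differentiableAt (by simp))
        rwa [hd x hx] at h2
      have h2 : HasDb j φ (db j φ x) x := hasDb_of ((hφ1.differentiable one_ne_zero) x)
      have h3 := (h1.mul h2).db_eq
      rw [indicator_of_mem hx, hh]
      rw [h3]
      ring
    · have hx' : x ∉ tsupport φ := fun h' => hx (hφW h')
      have hev : φ =ᶠ[𝓝 x] fun _ => 0 := by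
        filter_upwards [(isClosed_tsupport φ).isOpen_compl.mem_nhds hx'] with y hy
        exact image_eq_zero_of_notMem_tsupport hy
      have hev2 : h =ᶠ[𝓝 x] fun _ => 0 := by
        filter_upwards [hev] with y hy
        rw [hh]; simp only; rw [hy, mul_zero]
      rw [db_eq_zero_of_eventually hev2 j, db_eq_zero_of_eventually hev j,
        image_eq_zero_of_notMem_tsupport hx']
      ring
  have hi1 : Integrable (fun x => db j h x) := integrable_db hh1 hhc j
  have hi2 : Integrable (fun x => G x * φ x) :=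
    (hG.mul hφ.continuous).integrable_of_hasCompactSupport hφc.mul_left
  have h5 : (fun x => W.indicator v x * db j φ x) = fun x => db j h x - G x * φ x := by
    ext x; rw [hpt x]; ring
  rw [h5, integral_sub hi1 hi2, h0]
  ring

/-- The theorem for bounded measurable forms, solution in the sense of distributions. -/
theorem linfty_main {Ω : Set V} {C : ℝ}
    (hsol : ∀ (f : Fin 2 → V → ℂ) (M : ℝ),
      (∀ j, ContDiffOn ℝ ((⊤ : ℕ∞) : WithTop ℕ∞) (f j) Ω) →
      (∀ x ∈ Ω, db 0 (f 1) x = db 1 (f 0) x) →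
      (∀ x ∈ Ω, ∀ j, ‖f j x‖ ≤ M) →
      ∃ u : V → ℂ, ContDiffOn ℝ ((⊤ : ℕ∞) : WithTop ℕ∞) u Ω ∧
        (∀ x ∈ Ω, ∀ j : Fin 2, db j u x = f j x) ∧ ∀ x ∈ Ω, ‖u x‖ ≤ C * M)
    (hΩ : IsOpen Ω) (hne : Ω.Nonempty) (hb : Bornology.IsBounded Ω) (hc : Convex ℝ Ω)
    {f : Fin 2 → V → ℂ} {M : ℝ} (hM0 : 0 ≤ M)
    (hfm : ∀ j, AEStronglyMeasurable (f j) (volume.restrict Ω))
    (hfb : ∀ j, ∀ᵐ x ∂(volume.restrict Ω), ‖f j x‖ ≤ M)
    (hcl : ∀ φ : V → ℂ, ContDiff ℝ ((⊤ : ℕ∞) : WithTop ℕ∞) φ → HasCompactSupport φ →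
      tsupport φ ⊆ Ω → ∫ x in Ω, f 1 x * db 0 φ x = ∫ x in Ω, f 0 x * db 1 φ x) :
    ∃ u : V → ℂ, AEStronglyMeasurable u (volume.restrict Ω) ∧
      (∀ᵐ x ∂(volume.restrict Ω), ‖u x‖ ≤ C * M) ∧
      ∀ φ : V → ℂ, ContDiff ℝ ((⊤ : ℕ∞) : WithTop ℕ∞) φ → HasCompactSupport φ →
        tsupport φ ⊆ Ω → ∀ j, ∫ x in Ω, u x * db j φ x = - ∫ x in Ω, f j x * φ x := by
  obtain ⟨a, haΩ⟩ := hne
  obtain ⟨δ, hδ, ha⟩ := Metric.isOpen_iff.1 hΩ a haΩ
  have hΩm : MeasurableSet Ω := hΩ.measurableSet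
  have hΩfin : volume Ω ≠ ⊤ := hb.measure_lt_top.ne
  have : IsFiniteMeasure (volume.restrict Ω) := ⟨by
    rw [Measure.restrict_apply_univ]; exact hb.measure_lt_top⟩
  -- bounded measurable versions
  have hex : ∀ j, ∃ F : V → ℂ, StronglyMeasurable F ∧ (∀ x, ‖F x‖ ≤ M) ∧ (∀ x, x ∉ Ω → F x = 0) ∧
      f j =ᵐ[volume.restrict Ω] F := by
    intro j
    obtain ⟨F₀, hF₀, hfF⟩ := hfm j
    refine ⟨(Ω ∩ {x | ‖F₀ x‖ ≤ M}).indicator F₀, ?_, ?_, ?_, ?_⟩
    · exact hF₀.indicator (hΩm.inter (measurableSet_le hF₀.measurable.norm measurable_const))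
    · intro x
      by_cases hx : x ∈ Ω ∩ {x | ‖F₀ x‖ ≤ M}
      · rw [indicator_of_mem hx]; exact hx.2
      · rw [indicator_of_notMem hx]; simpa using hM0
    · intro x hx
      exact indicator_of_notMem (fun h => hx h.1) _
    · filter_upwards [hfF, hfb j, ae_restrict_mem hΩm] with x h1 h2 h3
      rw [indicator_of_mem, h1]
      refine ⟨h3, ?_⟩
      show ‖F₀ x‖ ≤ M
      rw [← h1]; exact h2
  choose F hFm hFM hF0 hfF using hex
  have hFint : ∀ j, Integrable (F j) volume := by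
    intro j
    have h1 : IntegrableOn (F j) Ω volume :=
      Integrable.of_bound (hFm j).aestronglyMeasurable M (Eventually.of_forall (hFM j))
    have h2 : (F j) = Ω.indicator (F j) := by
      ext x
      by_cases hx : x ∈ Ω
      · rw [indicator_of_mem hx]
      · rw [indicator_of_notMem hx, hF0 j x hx]
    rw [h2]
    exact h1.integrable_indicator hΩm
  have hFloc : ∀ j, LocallyIntegrable (F j) volume := fun j => (hFint j).locallyIntegrable
  have hFset : ∀ (j : Fin 2) (ψ : V → ℂ), ∫ x in Ω, f j x * ψ x = ∫ x, F j x * ψ x := by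
    intro j ψ
    rw [← setIntegral_eq_integral_of_forall_compl_eq_zero (s := Ω) (f := fun x => F j x * ψ x)]
    · refine integral_congr_ae ?_
      filter_upwards [hfF j] with x hx
      rw [hx]
    · intro x hx
      rw [hF0 j x hx, zero_mul]
  have hcl' : ∀ φ : V → ℂ, ContDiff ℝ ((⊤ : ℕ∞) : WithTop ℕ∞) φ → HasCompactSupport φ →
      tsupport φ ⊆ Ω → ∫ x, F 1 x * db 0 φ x = ∫ x, F 0 x * db 1 φ x := by
    intro φ h1 h2 h3
    rw [← hFset, ← hFset]
    exact hcl φ h1 h2 h3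
  -- the sequences
  set r : ℕ → ℝ := fun n => 1 - ((n : ℝ) + 2)⁻¹ with hr
  have hpos : ∀ n : ℕ, 0 < ((n : ℝ) + 2)⁻¹ := fun n => by positivity
  have hlt : ∀ n : ℕ, ((n : ℝ) + 2)⁻¹ < 1 := fun n => inv_lt_one_of_one_lt₀ (by
    have : (0 : ℝ) ≤ n := n.cast_nonneg
    linarith)
  have hr0 : ∀ n, 0 < r n := fun n => by rw [hr]; simp only; linarith [hlt n]
  have hr1 : ∀ n, r n < 1 := fun n => by rw [hr]; simp only; linarith [hpos n]
  have hinv0 : Tendsto (fun n : ℕ => ((n : ℝ) + 2)⁻¹) atTop (𝓝 0) :=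
    tendsto_inv_atTop_zero.comp
      (tendsto_atTop_add_const_right _ _ tendsto_natCast_atTop_atTop)
  have hrt : Tendsto r atTop (𝓝 1) := by
    have := hinv0.const_sub 1
    simpa using this
  set η : ℕ → ContDiffBump (0 : V) := fun n =>
    ⟨((n : ℝ) + 2)⁻¹ * δ / 4, ((n : ℝ) + 2)⁻¹ * δ / 2, by have := hpos n; positivity, by
      have h1 : 0 < ((n : ℝ) + 2)⁻¹ * δ := mul_pos (hpos n) hδ
      linarith⟩ with hη
  have hηr : ∀ n, (η n).rOut < (1 - r n) * δ := by
    intro n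
    have h1 : 0 < ((n : ℝ) + 2)⁻¹ * δ := mul_pos (hpos n) hδ
    have h2 : (η n).rOut = ((n : ℝ) + 2)⁻¹ * δ / 2 := rfl
    rw [h2, hr]
    simp only [sub_sub_cancel]
    linarith
  have hη0 : Tendsto (fun n => (η n).rOut) atTop (𝓝 0) := by
    have h1 : (fun n => (η n).rOut) = fun n : ℕ => ((n : ℝ) + 2)⁻¹ * δ / 2 := rfl
    rw [h1]
    have h2 := (hinv0.mul_const δ).div_const 2
    simpa using h2
  have hηK : ∀ n, (η n).rOut ≤ 2 * (η n).rIn := by
    intro n
    have h2 : (η n).rOut = ((n : ℝ) + 2)⁻¹ * δ / 2 := rfl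
    have h3 : (η n).rIn = ((n : ℝ) + 2)⁻¹ * δ / 4 := rfl
    rw [h2, h3]
    linarith
  have hex2 := fun n => sol_contracted hsol hΩ hc ha hFM hFloc hcl' (hr0 n) (hr1 n) (η n) (hηr n)
  choose v hv hvd hvb using hex2
  set W : ℕ → Set V := fun n => dil a (r n)⁻¹ ⁻¹' Ω with hW
  have hWo : ∀ n, IsOpen (W n) := fun n => hΩ.preimage (contDiff_dil a _ 0).continuous
  have hCM : 0 ≤ C * M := by
    have h1 : a ∈ W 0 := by
      show dil a (r 0)⁻¹ a ∈ Ω
      unfold dil
      simpa using haΩ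
    exact (norm_nonneg _).trans (hvb 0 a h1)
  set w : ℕ → V → ℂ := fun n => (W n).indicator (v n) with hw
  have hwm : ∀ n, AEStronglyMeasurable (w n) (volume.restrict Ω) := by
    intro n
    refine AEStronglyMeasurable.restrict ?_
    rw [hw, aestronglyMeasurable_indicator_iff (hWo n).measurableSet]
    exact (hv n).continuousOn.aestronglyMeasurable (hWo n).measurableSet
  have hwb : ∀ n, ∀ᵐ x ∂(volume.restrict Ω), ‖w n x‖ ≤ C * M := by
    intro n
    refine Eventually.of_forall fun x => ?_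
    rw [hw]
    simp only
    by_cases hx : x ∈ W n
    · rw [indicator_of_mem hx]; exact hvb n x hx
    · rw [indicator_of_notMem hx]; simpa using hCM
  obtain ⟨u, hum, hub, hu⟩ := exists_weak_limit hwm hwb
  refine ⟨u, hum, hub, ?_⟩
  intro φ hφ hφc hφΩ j
  have hφ1 : ContDiff ℝ 1 φ := hφ.of_le (by exact_mod_cast le_top)
  have hdc : Continuous (fun x => db j φ x) := continuous_db hφ1 j
  have hdcs : HasCompactSupport (fun x => db j φ x) := hasCompactSupport_db hφc j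
  have hdL : MemLp (fun x => db j φ x) 2 (volume.restrict Ω) :=
    (hdc.memLp_of_hasCompactSupport hdcs).restrict Ω
  refine hu _ hdL _ ?_
  -- eventually the support of `φ` is inside `W n`
  have hsupp : ∀ᶠ n in atTop, tsupport φ ⊆ W n := by
    have hK : IsCompact (tsupport φ) := hφc
    have h1 : ∀ y ∈ tsupport φ, ∀ᶠ z : ℝ × V in 𝓝 ((1 : ℝ), y), dil a z.1 z.2 ∈ Ω := by
      intro y hy
      have hcont : Continuous fun z : ℝ × V => dil a z.1 z.2 := by
        unfold dil; fun_prop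
      have h2 : dil a (1 : ℝ) y ∈ Ω := by
        unfold dil; simpa using hφΩ hy
      exact hcont.continuousAt.eventually (hΩ.mem_nhds h2)
    have h2 := hK.eventually_forall_of_forall_eventually
      (P := fun (s : ℝ) (y : V) => dil a s y ∈ Ω) (x₀ := (1 : ℝ)) h1
    have h3 : Tendsto (fun n => (r n)⁻¹) atTop (𝓝 1) := by
      have := hrt.inv₀ one_ne_zero
      simpa using this
    filter_upwards [h3.eventually h2] with n hn y hy
    exact hn y hy
  -- convergence of the right-hand sides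
  have hconv : Tendsto (fun n => ∫ x, Gm (η n) (F j) x * φ x) atTop (𝓝 (∫ x, F j x * φ x)) := by
    refine tendsto_integral_of_dominated_convergence (fun x => M * ‖φ x‖) ?_ ?_ ?_ ?_
    · intro n
      exact ((contDiff_Gm (η n) (hFloc j)).continuous.mul hφ.continuous).aestronglyMeasurable
    · exact (hφ.continuous.norm.integrable_of_hasCompactSupport hφc.norm).const_mul M
    · intro n
      refine Eventually.of_forall fun x => ?_
      rw [norm_mul]
      exact mul_le_mul_of_nonneg_right (norm_Gm_le (η n) (hFM j) x) (norm_nonneg _)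
    · filter_upwards [Gm_tendsto hη0 hηK (hFloc j)] with x hx
      exact hx.mul_const _
  rw [hFset j φ]
  refine (hconv.neg).congr' ?_
  filter_upwards [hsupp] with n hn
  have h1 := ibp (hWo n) (hv n) (contDiff_Gm (η n) (hFloc j)).continuous
    (fun y hy => hvd n y hy j) hφ hφc hn
  rw [← h1]
  rw [← setIntegral_eq_integral_of_forall_compl_eq_zero (s := Ω)]
  intro x hx
  have hx' : x ∉ tsupport φ := fun h' => hx (hφΩ h')
  have hev : φ =ᶠ[𝓝 x] fun _ => 0 := by
    filter_upwards [(isClosed_tsupport φ).isOpen_compl.mem_nhds hx'] with y hy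
    exact image_eq_zero_of_notMem_tsupport hy
  rw [db_eq_zero_of_eventually hev j, mul_zero]

end Dbi
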