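import Pool.Agent.Lib_helper71.Db.Final

/-!
Mollification of bounded forms which are closed in the sense of distributions.
-/

set_option autoImplicit false

open MeasureTheory Set Metric Filter Topology Convolution
open scoped ENNReal NNReal ContDiff

namespace Dbi

open Db

/-- The complex valued mollifier. -/
noncomputable def etc (η : ContDiffBump (0 : V)) (x : V) : ℂ := ((η.normed volume x : ℝ) : ℂ)

lemma contDiff_etc (η : ContDiffBump (0 : V)) (n : ℕ∞) : ContDiff ℝ n (etc η) := by
  unfold etc
  exact Complex.ofRealCLM.contDiff.comp η.contDiff_normed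

lemma hasCompactSupport_etc (η : ContDiffBump (0 : V)) : HasCompactSupport (etc η) := by
  unfold etc
  exact η.hasCompactSupport_normed.comp_left (g := fun r : ℝ => (r : ℂ)) Complex.ofReal_zero

/-- The mollified function. -/
noncomputable def Gm (η : ContDiffBump (0 : V)) (F : V → ℂ) (x : V) : ℂ :=
  ∫ t, F t * etc η (x - t)

lemma Gm_eq (η : ContDiffBump (0 : V)) (F : V → ℂ) :
    Gm η F = F ⋆[ContinuousLinearMap.mul ℝ ℂ, volume] etc η := by
  ext x
  rfl

lemma contDiff_Gm (η : ContDiffBump (0 : V)) {F : V → ℂ} (hF : LocallyIntegrable F volume) :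
    ContDiff ℝ ((⊤ : ℕ∞) : WithTop ℕ∞) (Gm η F) := by
  rw [Gm_eq]
  exact (hasCompactSupport_etc η).contDiff_convolution_right _ hF (contDiff_etc η ⊤)

lemma fderiv_Gm (η : ContDiffBump (0 : V)) {F : V → ℂ} (hF : LocallyIntegrable F volume)
    (x e : V) : fderiv ℝ (Gm η F) x e = ∫ t, F t * fderiv ℝ (etc η) (x - t) e := by
  rw [Gm_eq]
  have h := (hasCompactSupport_etc η).hasFDerivAt_convolution_right
    (ContinuousLinearMap.mul ℝ ℂ) hF (contDiff_etc η 1) x
  rw [h.fderiv, convolution_precompR_apply _ hF ((hasCompactSupport_etc η).fderiv ℝ)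
    ((contDiff_etc η 1).continuous_fderiv one_ne_zero)]
  rfl

lemma integrable_conv (η : ContDiffBump (0 : V)) {F : V → ℂ} (hF : LocallyIntegrable F volume)
    (x e : V) : Integrable (fun t => F t * fderiv ℝ (etc η) (x - t) e) := by
  have hc : HasCompactSupport (fun a : V => fderiv ℝ (etc η) a e) :=
    ((hasCompactSupport_etc η).fderiv ℝ).comp_left (g := fun L : V →L[ℝ] ℂ => L e) (by simp)
  have hcont : Continuous (fun a : V => fderiv ℝ (etc η) a e) :=
    ((contDiff_etc η 1).continuous_fderiv one_ne_zero).clm_apply continuous_const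
  have := hc.convolutionExists_right (ContinuousLinearMap.mul ℝ ℂ) hF hcont x
  exact this

lemma db_Gm (η : ContDiffBump (0 : V)) {F : V → ℂ} (hF : LocallyIntegrable F volume)
    (k : Fin 2) (x : V) : db k (Gm η F) x = ∫ t, F t * db k (etc η) (x - t) := by
  unfold db
  rw [fderiv_Gm η hF, fderiv_Gm η hF, ← integral_const_mul, ← integral_add, ← integral_const_mul]
  · refine integral_congr_ae (Eventually.of_forall fun t => ?_)
    simp only
    ring
  · exact integrable_conv η hF x _
  · exact (integrable_conv η hF x _).const_mul _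

lemma db_reflect (η : ContDiffBump (0 : V)) (k : Fin 2) (x t : V) :
    db k (fun s => etc η (x - s)) t = - db k (etc η) (x - t) := by
  have hd : DifferentiableAt ℝ (etc η) (x - t) := (contDiff_etc η 1).differentiable one_ne_zero _
  have h : HasFDerivAt (fun s : V => etc η (x - s))
      ((fderiv ℝ (etc η) (x - t)).comp (-ContinuousLinearMap.id ℝ V)) t := by
    have h1 : HasFDerivAt (fun s : V => x - s) (-ContinuousLinearMap.id ℝ V) t := by
      exact (hasFDerivAt_id (𝕜 := ℝ) t).const_sub x
    exact hd.hasFDerivAt.comp t h1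
  unfold db
  rw [h.fderiv]
  simp only [ContinuousLinearMap.comp_apply, neg_apply,
    ContinuousLinearMap.id_apply, map_neg]
  ring

lemma tsupport_reflect (η : ContDiffBump (0 : V)) (x : V) :
    tsupport (fun s => etc η (x - s)) ⊆ closedBall x η.rOut := by
  refine closure_minimal ?_ isClosed_closedBall
  intro s hs
  rw [Function.mem_support] at hs
  by_contra hcon
  apply hs
  have h1 : x - s ∉ Function.support (η.normed (volume : Measure V)) := by
    rw [η.support_normed_eq]
    simp only [mem_closedBall, dist_eq_norm] at hcon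
    simp only [mem_ball, dist_zero_right, not_lt]
    rw [norm_sub_rev]
    linarith
  unfold etc
  rw [Function.notMem_support.1 h1, Complex.ofReal_zero]

lemma hasCompactSupport_reflect (η : ContDiffBump (0 : V)) (x : V) :
    HasCompactSupport (fun s => etc η (x - s)) :=
  HasCompactSupport.of_support_subset_isCompact (isCompact_closedBall x η.rOut)
    ((subset_tsupport _).trans (tsupport_reflect η x))

lemma contDiff_reflect (η : ContDiffBump (0 : V)) (x : V) :
    ContDiff ℝ ((⊤ : ℕ∞) : WithTop ℕ∞) (fun s => etc η (x - s)) :=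
  (contDiff_etc η ⊤).comp (contDiff_const.sub contDiff_id)

/-- Mollified closed forms are closed. -/
lemma Gm_closed (η : ContDiffBump (0 : V)) {Ω : Set V} {F : Fin 2 → V → ℂ}
    (hF : ∀ j, LocallyIntegrable (F j) volume)
    (hcl : ∀ φ : V → ℂ, ContDiff ℝ ((⊤ : ℕ∞) : WithTop ℕ∞) φ → HasCompactSupport φ →
      tsupport φ ⊆ Ω → ∫ x, F 1 x * db 0 φ x = ∫ x, F 0 x * db 1 φ x)
    {x : V} (hx : closedBall x η.rOut ⊆ Ω) :
    db 0 (Gm η (F 1)) x = db 1 (Gm η (F 0)) x := by
  have h := hcl _ (contDiff_reflect η x) (hasCompactSupport_reflect η x)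
    ((tsupport_reflect η x).trans hx)
  rw [db_Gm η (hF 1), db_Gm η (hF 0)]
  simp only [db_reflect, mul_neg, integral_neg, neg_inj] at h
  exact h

lemma integral_etc (η : ContDiffBump (0 : V)) (x : V) :
    ∫ t, η.normed (volume : Measure V) (x - t) = 1 := by
  rw [integral_sub_left_eq_self (fun t => η.normed (volume : Measure V) t)]
  exact η.integral_normed

lemma norm_Gm_le (η : ContDiffBump (0 : V)) {F : V → ℂ} {M : ℝ} (hM : ∀ x, ‖F x‖ ≤ M) (x : V) :
    ‖Gm η F x‖ ≤ M := by
  have hint : Integrable (fun t => η.normed (volume : Measure V) (x - t)) := by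
    have h1 : Integrable (η.normed (volume : Measure V)) := η.integrable_normed
    exact h1.comp_sub_left x
  calc ‖Gm η F x‖ ≤ ∫ t, M * η.normed (volume : Measure V) (x - t) := by
        refine norm_integral_le_of_norm_le (hint.const_mul M) (Eventually.of_forall fun t => ?_)
        rw [norm_mul]
        have h2 : ‖etc η (x - t)‖ = η.normed (volume : Measure V) (x - t) := by
          unfold etc
          rw [Complex.norm_real, Real.norm_of_nonneg (η.nonneg_normed _)]
        rw [h2]
        exact mul_le_mul_of_nonneg_right (hM t) (η.nonneg_normed _)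
    _ = M := by rw [integral_const_mul, integral_etc, mul_one]

/-- Almost everywhere convergence of the mollifications. -/
lemma Gm_tendsto {η : ℕ → ContDiffBump (0 : V)} (h0 : Tendsto (fun i => (η i).rOut) atTop (𝓝 0))
    {K : ℝ} (hK : ∀ i, (η i).rOut ≤ K * (η i).rIn) {F : V → ℂ} (hF : LocallyIntegrable F volume) :
    ∀ᵐ x, Tendsto (fun i => Gm (η i) F x) atTop (𝓝 (F x)) := by
  filter_upwards [ContDiffBump.ae_convolution_tendsto_right_of_locallyIntegrable h0
    (Eventually.of_forall hK) hF] with x hx
  refine hx.congr fun i => ?_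
  rw [convolution_eq_swap]
  unfold Gm etc
  refine integral_congr_ae (Eventually.of_forall fun t => ?_)
  simp [mul_comm]

end Dbi
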